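import Pool.Agent.X320.CF.Fam

/-!
# Analytic families of representations with algebraic Frobenius traces at a positive proportion of the places

Only countably many representations occur in the cohomology of proper smooth schemes over a number field `K`
(condition 3). So if condition 2 (the Frobenius eigenvalues are algebraic integers, and purity) implies condition 3, then
condition 2 can hold for countably many members only of an analytic family of pairwise different representations. We
prove this, and much less than condition 2 is needed: the Frobenius traces need only be algebraic numbers (or lie in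
any fixed countable set), and only at a positive proportion of the places, which may depend on the member.

Let `ρ x`, `x ∈ X`, be continuous representations `G_K → GL_n(ℚ̄_ℓ)` such that for every `g` the function
`x ↦ tr (ρ x g)` is constant or takes every value at most countably often; for example an analytic function on
a connected curve. Let `C` be countable, for example the set of the algebraic numbers.

(A) If uncountably many `ρ x` are strongly irreducible and have Frobenius traces in `C` at a set of places of
positive upper density, then all `ρ x`, `x ∈ X`, are conjugate.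

(B) If uncountably many `ρ x` have Frobenius traces in `C` at a set of places of upper density larger than
`1 - 1 / (2 n²)`, then the characteristic polynomials of the `ρ x g` do not depend on `x`.

Proof. There are countably many places; so for all `x` outside a countable set a place at which the Frobenius traces of
`ρ x` are in `C` is a place at which the Frobenius traces are constant on `X`. So the places with constant traces
have positive upper density. If `ρ x₁` is strongly irreducible, then all `ρ x` are twists of `ρ x₁` by characters of finite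
order (equality of the traces on a coset of an open subgroup by noetherian descent, Skolem-Noether). So for fixed
`g` the function `x ↦ tr (ρ x g)` has countably many values, hence it is constant.
-/

set_option autoImplicit false

namespace Pool.Agent.Results.MP_395897_nt.AnalyticFamilies

open NumberField IsDedekindDomain Filter Matrix
open Pool.Agent.W401.Cheb (GK IsFrob dens)

/-- representations of `G_K` by `n × n` matrices over an algebraic closure of `ℚ_ℓ` -/
noncomputable abbrev Rep (K : Type) [Field K] (ℓ : ℕ) [Fact ℓ.Prime] (n : ℕ) : Type := GK K →* GL (Fin n) (PadicAlgCl ℓ)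

/-- the matrix of `g` -/
noncomputable abbrev mat {K : Type} [Field K] {ℓ : ℕ} [Fact ℓ.Prime] {n : ℕ} (ρ : Rep K ℓ n) (g : GK K) :
    Matrix (Fin n) (Fin n) (PadicAlgCl ℓ) := (ρ g : Matrix (Fin n) (Fin n) (PadicAlgCl ℓ))

section

variable {K : Type} [Field K] [NumberField K] {ℓ : ℕ} [Fact ℓ.Prime] {n : ℕ}

/-- The family satisfies the identity theorem: for every `g` the function `x ↦ tr (ρ x g)` is constant, or it takes
every value at most countably often. Analytic functions on connected curves have this property. -/
def IdentityTheorem {X : Type} (ρ : X → Rep K ℓ n) : Prop :=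
  ∀ g : GK K, (∀ x y, (mat (ρ x) g).trace = (mat (ρ y) g).trace) ∨
    ∀ a : PadicAlgCl ℓ, {x | (mat (ρ x) g).trace = a}.Countable

/-- `ρ` is strongly irreducible: for every open subgroup `H` the matrices `ρ (h)`, `h ∈ H`, span the space of all
matrices -/
def StronglyIrreducible (ρ : Rep K ℓ n) : Prop :=
  ∀ H : Subgroup (GK K), IsOpen (H : Set (GK K)) →
    Submodule.span (PadicAlgCl ℓ) ((fun h => mat ρ h) '' (H : Set (GK K))) = ⊤

/-- The set of the places `v` such that the traces of all Frobenius elements at `v` are in `C` has upper density at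
least `δ`. -/
def TracesIn (ρ : Rep K ℓ n) (C : Set (PadicAlgCl ℓ)) (δ : ℝ) : Prop :=
  ∃ᶠ N in atTop, δ ≤ dens (fun v : HeightOneSpectrum (𝓞 K) => ∀ σ, IsFrob v σ → (mat ρ σ).trace ∈ C) N

end

/-- Let `K` be a number field and `ρ x`, `x ∈ X`, continuous representations `G_K → GL_n(ℚ̄_ℓ)`, `n ≥ 1`, whose traces
satisfy the identity theorem. Let `C` be a countable set, for example the set of the algebraic numbers.
(A) Suppose that uncountably many `ρ x` are strongly irreducible and have Frobenius traces in `C` at a set of places of
positive upper density. Then all `ρ x` are conjugate.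
(B) Suppose that uncountably many `ρ x` have Frobenius traces in `C` at a set of places of upper density larger than
`1 - 1 / (2 n²)`. Then the characteristic polynomial of `ρ x g` does not depend on `x`, for every `g`. -/
theorem result (K : Type) [Field K] [NumberField K] (ℓ : ℕ) [Fact ℓ.Prime] (n : ℕ) (hn : 0 < n) (X : Type)
    (ρ : X → Rep K ℓ n) (hρ : ∀ x, Continuous (ρ x)) (hX : IdentityTheorem ρ) (C : Set (PadicAlgCl ℓ))
    (hC : C.Countable) :
    (¬ {x | StronglyIrreducible (ρ x) ∧ ∃ δ : ℝ, 0 < δ ∧ TracesIn (ρ x) C δ}.Countable →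
      ∀ x y, ∃ A : GL (Fin n) (PadicAlgCl ℓ), ∀ g, ρ y g = A * ρ x g * A⁻¹) ∧
    (¬ {x | ∃ δ : ℝ, (1 - δ) * (2 * (n : ℝ) ^ 2) < 1 ∧ TracesIn (ρ x) C δ}.Countable →
      ∀ x y g, (mat (ρ x) g).charpoly = (mat (ρ y) g).charpoly) := by
  classical
  refine ⟨fun hT => ?_, fun hT => ?_⟩
  · have hX' : ¬ Countable X := fun h => hT (Set.to_countable _)
    let δ : X → ℝ := fun x => if h : ∃ δ : ℝ, 0 < δ ∧ TracesIn (ρ x) C δ then h.choose else 1
    have hδ : ∀ x ∈ {x | StronglyIrreducible (ρ x) ∧ ∃ δ : ℝ, 0 < δ ∧ TracesIn (ρ x) C δ},
        0 < δ x ∧ TracesIn (ρ x) C (δ x) := by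
      intro x hx
      have h1 : δ x = hx.2.choose := dif_pos hx.2
      rw [h1]
      exact hx.2.choose_spec
    obtain ⟨x₁, hx₁, h₁⟩ := Pool.Agent.X320.CF.exists_good hX hC hT δ (fun x hx => (hδ x hx).2)
    have h2 := fun g x y => Pool.Agent.X320.CF.fam_pos hn hX hρ hx₁.1 (hδ x₁ hx₁).1 hX' h₁ g x y
    have h3 : Pool.Agent.X320.CF.Spans (ρ x₁) ⊤ := hx₁.1 ⊤ isOpen_univ
    intro x y
    obtain ⟨A, hA⟩ := Pool.Agent.X320.CF.conj_of_traces (ρ := ρ) (x := x₁) (y := x) h3 (fun g => h2 g x₁ x)
    obtain ⟨B, hB⟩ := Pool.Agent.X320.CF.conj_of_traces (ρ := ρ) (x := x₁) (y := y) h3 (fun g => h2 g x₁ y)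
    refine ⟨B * A⁻¹, fun g => ?_⟩
    rw [hB, hA]
    group
  · let δ : X → ℝ := fun x => if h : ∃ δ : ℝ, (1 - δ) * (2 * (n : ℝ) ^ 2) < 1 ∧ TracesIn (ρ x) C δ then h.choose else 1
    have hδ : ∀ x ∈ {x | ∃ δ : ℝ, (1 - δ) * (2 * (n : ℝ) ^ 2) < 1 ∧ TracesIn (ρ x) C δ},
        (1 - δ x) * (2 * (n : ℝ) ^ 2) < 1 ∧ TracesIn (ρ x) C (δ x) := by
      intro x hx
      have hx' : ∃ δ : ℝ, (1 - δ) * (2 * (n : ℝ) ^ 2) < 1 ∧ TracesIn (ρ x) C δ := hx
      have h1 : δ x = hx'.choose := dif_pos hx'
      rw [h1]
      exact hx'.choose_spec
    obtain ⟨x₁, hx₁, h₁⟩ := Pool.Agent.X320.CF.exists_good hX hC hT δ (fun x hx => (hδ x hx).2)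
    have h2 := fun (x : X) (g : GK K) => Pool.Agent.X320.CF.fam_large (x₁ := x₁) hX hρ (hδ x₁ hx₁).1 h₁ x g
    intro x y g
    refine Pool.Agent.TH658.Eq.charpoly_eq_of_traces _ _ fun m => ?_
    rw [← Units.val_pow_eq_pow_val, ← map_pow, ← Units.val_pow_eq_pow_val, ← map_pow]
    exact (h2 x _).symm.trans (h2 y _)

end Pool.Agent.Results.MP_395897_nt.AnalyticFamilies
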