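import Pool.Agent.X291.DR.Glob

/-!
# Integral and pure of weight one does not imply de Rham

For every number field `F` and every prime number `l` there is a continuous character
`χ : G_F → GL_1(ℚ̄_l)` which is unramified at every place `v ∤ l`, whose Weil–Deligne
representations at these places are integral and pure of weight `1`, and which is not de Rham at
any place `v ∣ l`. So condition 2 of the problem does not imply condition 1.

The character is `⟨ε⟩ ^ (-1/2)`: if `s` is a continuous character of `ℤ_lˣ` with values in `ℚ̄_lˣ`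
whose square is the inclusion up to a character of finite order, then `χ = s(ε)⁻¹`, where `ε` is the
cyclotomic character.
-/

set_option autoImplicit false

open NumberField

namespace Pool.Agent.Results.MP_395897_nt.NotDeRham

open Pool.Agent.X291.DR

/-- `ρ` is irreducible: the representation space is not zero and has no stable subspaces besides
`0` and itself. -/
def IsIrred {F : Type} [Field F] {E : Type} [Field E] {n : ℕ} (ρ : GF F →* GL (Fin n) E) : Prop :=
  n ≠ 0 ∧ ∀ W : Submodule E (Fin n → E),
    (∀ σ : GF F, ∀ w ∈ W, (ρ σ : Matrix (Fin n) (Fin n) E).mulVec w ∈ W) → W = ⊥ ∨ W = ⊤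

/-- For every number field `F` and every prime number `l` there is a continuous irreducible
representation `χ : G_F → GL_1(ℚ̄_l)`, unramified at all finite places `v ∤ l`, which is integral and
pure of weight `1` at each of them, while `D_dR(χ|_{G_{F_v}}) = 0` and `χ|_{G_{F_v}}` is not
de Rham at every place `v ∣ l`. -/
theorem result (F : Type) [Field F] [NumberField F] (l : ℕ) [Fact l.Prime] :
    Nonempty (AlgebraicClosure F →+* PadicAlgCl l) ∧
    ∃ χ : GF F →* GL (Fin 1) (PadicAlgCl l),
      Continuous χ ∧ IsIrred χ ∧ IsUnramifiedPure l 1 χ ∧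
      ∀ j : AlgebraicClosure F →+* PadicAlgCl l, dimDdR j χ = 0 ∧ ¬ IsDeRhamAt j χ := by
  refine ⟨exists_embedding F l, ?_⟩
  obtain ⟨s, hs, ⟨N, hN, hsN⟩, U, hU, hU2⟩ := exists_s l
  refine ⟨chr F s, continuous_chr s hs, ⟨one_ne_zero, ?_⟩, chr_pure s N hN hsN, fun j => ?_⟩
  · intro W _
    have h1 : Module.finrank (PadicAlgCl l) (Fin 1 → PadicAlgCl l) = 1 := by simp
    have h2 : IsSimpleOrder (Submodule (PadicAlgCl l) (Fin 1 → PadicAlgCl l)) := by
      have h3 : IsSimpleModule (PadicAlgCl l) (Fin 1 → PadicAlgCl l) :=
        isSimpleModule_iff_finrank_eq_one.2 h1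
      exact h3.toIsSimpleOrder
    exact eq_bot_or_eq_top W
  · have h1 : dimDdR j (chr F s) = 0 := by
      rw [dimDdR, DdR_eq_bot s N hN hsN U hU2 j, rank_bot]
    refine ⟨h1, ?_⟩
    intro h2
    rw [IsDeRhamAt, h1] at h2
    have h3 := fin_localField j
    have h4 : Module.finrank ℚ_[l] (localField j) ≠ 0 := Module.finrank_pos.ne'
    have h5 : (0 : Cardinal.{0}) = ((1 * Module.finrank ℚ_[l] (localField j) : ℕ) : Cardinal.{0}) := by
      exact_mod_cast h2
    have h6 : 0 = 1 * Module.finrank ℚ_[l] (localField j) := by exact_mod_cast h5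
    omega

end Pool.Agent.Results.MP_395897_nt.NotDeRham
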