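import Pool.Agent.X264.IF.Main

set_option autoImplicit false

namespace Pool.Agent.Results.MP_395897_nt.RationalsAndLieIrreducible

open Pool.Agent.X264.IF

universe u

/-- Given the standard properties in `IsKnown`: the question for all number fields is equivalent to the
question for `F = ℚ`, and, for every number field `L`, to the question for the Lie irreducible
representations over number fields `F ⊇ L`. -/
theorem result (Ω : Type u) [Field Ω] (G : Type u) [Group G] (W : World Ω G) (K : W.IsKnown)
    (L : W.Fld) : ((∀ F, W.Question F) ↔ W.Question W.Q) ∧
      ((∀ F, W.Question F) ↔ ∀ F, W.sub F ≤ W.sub L → W.LieQuestion F) :=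
  World.main K L

end Pool.Agent.Results.MP_395897_nt.RationalsAndLieIrreducible
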