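import Pool.Agent.X320.RU.Final

/-!
# Integral ℓ-adic representations which are pure of weight zero

Let `K` be a number field and `ρ : G_K → GL_n(ℚ̄_ℓ)` continuous and semisimple, with any ramification. Condition 2
of the integral refinement of the Fontaine-Mazur conjecture, for the weight `w = 0`, implies that at every place `v`
not above `ℓ` the eigenvalues of `ρ` on all geometric Frobenius elements at `v` are algebraic integers all of
whose complex conjugates have absolute value one. We prove that if this holds, with absolute value at most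
one, for the places in a set of upper density more than `1 - 1/n`, then `ρ` has finite image. So conditions 1 and 2 hold
with weight `0`, and an irreducible `ρ` occurs in the `H^0` of a finite étale `K`-scheme, which is condition 3.

More precisely `1 - 1/n` can be replaced with `1 - 1/d`, if the restriction of `ρ` to every open normal
subgroup has at most `d` isomorphism classes of irreducible constituents. By Clifford's theorem this holds for `d = 1`
if `ρ` is irreducible and not induced from a proper open subgroup: in this case a positive upper density is enough.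

The bound `1 - 1/n` is optimal: let `L/K` be cyclic of degree `n`, and `ψ` a character of
`G_L` of infinite order whose product with its conjugates is trivial. If `n` is a prime, the eigenvalues of the induced
representation are roots of unity at all places which are not split in `L`, which have density `1 - 1/n`.
-/

set_option autoImplicit false

namespace Pool.Agent.Results.MP_395897_nt.WeightZero

open NumberField IsDedekindDomain Filter Matrix Polynomial
open Pool.Agent.W401.Cheb (GK IsFrob dens)

/-- representations of `G_K` by `n × n` matrices over an algebraic closure of `ℚ_ℓ` -/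
noncomputable abbrev Rep (K : Type) [Field K] (ℓ : ℕ) [Fact ℓ.Prime] (n : ℕ) : Type := GK K →* GL (Fin n) (PadicAlgCl ℓ)

/-- the matrix of `g` -/
noncomputable abbrev mat {K : Type} [Field K] {ℓ : ℕ} [Fact ℓ.Prime] {n : ℕ} (ρ : Rep K ℓ n) (g : GK K) :
    Matrix (Fin n) (Fin n) (PadicAlgCl ℓ) := (ρ g : Matrix (Fin n) (Fin n) (PadicAlgCl ℓ))

section

variable {K : Type} [Field K] {ℓ : ℕ} [Fact ℓ.Prime] {n : ℕ} (ρ : Rep K ℓ n)

/-- the subspace `S` is stable under the subgroup `W` -/
def StableOn (W : Subgroup (GK K)) (S : Submodule (PadicAlgCl ℓ) (Fin n → PadicAlgCl ℓ)) : Prop :=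
  ∀ w ∈ W, ∀ s ∈ S, mat ρ w *ᵥ s ∈ S

/-- `ρ` is semisimple: every stable subspace has a stable complement -/
def Semisimple : Prop := ∀ S, StableOn ρ ⊤ S → ∃ S', StableOn ρ ⊤ S' ∧ IsCompl S S'

/-- `S` is minimal among the nonzero subspaces which are stable under `W` -/
def MinStable (W : Subgroup (GK K)) (S : Submodule (PadicAlgCl ℓ) (Fin n → PadicAlgCl ℓ)) : Prop :=
  S ≠ ⊥ ∧ StableOn ρ W S ∧ ∀ S' ≤ S, StableOn ρ W S' → S' = ⊥ ∨ S' = S

/-- There is a nonzero `W`-linear map from `S` to `S'`. It is an isomorphism if both are minimal. -/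
def Linked (W : Subgroup (GK K)) (S S' : Submodule (PadicAlgCl ℓ) (Fin n → PadicAlgCl ℓ)) : Prop :=
  ∃ φ : (Fin n → PadicAlgCl ℓ) →ₗ[PadicAlgCl ℓ] (Fin n → PadicAlgCl ℓ), (∀ s ∈ S, φ s ∈ S') ∧
    (∃ s ∈ S, φ s ≠ 0) ∧ ∀ w ∈ W, ∀ s ∈ S, φ (mat ρ w *ᵥ s) = mat ρ w *ᵥ φ s

/-- Among any `d + 1` minimal stable subspaces for an open normal subgroup two are isomorphic. -/
def TypesLE (d : ℕ) : Prop :=
  ∀ W : Subgroup (GK K), W.Normal → IsOpen (W : Set (GK K)) →
    ∀ S : Fin (d + 1) → Submodule (PadicAlgCl ℓ) (Fin n → PadicAlgCl ℓ), (∀ i, MinStable ρ W (S i)) →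
      ∃ i j, i ≠ j ∧ Linked ρ W (S i) (S j)

/-- `a` is an algebraic integer all of whose complex conjugates have absolute value at most one -/
def IntBounded {F : Type} [Field F] (a : F) : Prop :=
  IsIntegral ℤ a ∧ ∀ z : ℂ, aeval z (minpoly ℤ a) = 0 → ‖z‖ ≤ 1

/-- `a` is an algebraic integer all of whose complex conjugates have absolute value one -/
def IntPure {F : Type} [Field F] (a : F) : Prop :=
  IsIntegral ℤ a ∧ ∀ z : ℂ, aeval z (minpoly ℤ a) = 0 → ‖z‖ = 1

end

/-- Let `ρ : G_K → GL_n(ℚ̄_ℓ)` be continuous and semisimple. Let `d = n`, or let `d` be such that the restriction of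
`ρ` to any open normal subgroup has at most `d` isomorphism classes of minimal stable subspaces. Suppose that
`(1 - δ) d < 1`, and that for the places `v` in a set of upper density at least `δ` (the proportion of these places
among the places of norm at most `N` is at least `δ` for arbitrarily large `N`) all eigenvalues of all geometric
Frobenius elements `σ⁻¹` at `v` are algebraic integers all of whose complex conjugates have absolute
value at most one. Then `ρ` is trivial on an open subgroup, its image is finite, and all eigenvalues of all `ρ g` are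
algebraic integers all of whose conjugates have absolute value one. -/
theorem result (K : Type) [Field K] [NumberField K] (ℓ : ℕ) [Fact ℓ.Prime] (n : ℕ) (ρ : Rep K ℓ n)
    (hρ : Continuous ρ) (hss : Semisimple ρ) (d : ℕ) (hd : d = n ∨ TypesLE ρ d) (δ : ℝ) (hδ : (1 - δ) * d < 1)
    (h : ∃ᶠ N in atTop, δ ≤ dens (fun v : HeightOneSpectrum (𝓞 K) =>
      ∀ σ, IsFrob v σ → ∀ a, (mat ρ σ⁻¹).charpoly.IsRoot a → IntBounded a) N) :
    (∃ H : Subgroup (GK K), IsOpen (H : Set (GK K)) ∧ ∀ h ∈ H, ρ h = 1) ∧
    (Set.range ρ).Finite ∧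
    ∀ g a, (mat ρ g).charpoly.IsRoot a → IntPure a := by
  classical
  have hss' : Pool.Agent.X320.DS.Semisimple ρ := by
    intro S hS
    obtain ⟨S', hS', hc⟩ := hss S (fun g _ => hS g)
    exact ⟨S', fun g => hS' g (Subgroup.mem_top g), hc⟩
  obtain ⟨H, hH, h1⟩ := Pool.Agent.X320.RU.weight_zero ρ hρ hss' (hd.symm.imp_left fun hd => hd) hδ _ h
    (fun v hv σ hσ a ha => hv σ hσ a ha)
  have : Finite (GK K ⧸ H) := Subgroup.quotient_finite_of_isOpen _ hH
  refine ⟨⟨H, hH, h1⟩, ?_, fun g a ha => ?_⟩
  · refine (Set.finite_range fun q : GK K ⧸ H => ρ q.out).subset ?_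
    rintro _ ⟨g, rfl⟩
    refine ⟨QuotientGroup.mk g, ?_⟩
    have h2 : ((QuotientGroup.mk g : GK K ⧸ H).out)⁻¹ * g ∈ H := by
      rw [← QuotientGroup.eq, QuotientGroup.out_eq']
    have h3 := h1 _ h2
    rw [map_mul, map_inv, inv_mul_eq_one] at h3
    exact h3
  · obtain ⟨m, hm, ham⟩ := Pool.Agent.X320.RU.eigen_finite ρ hH h1 g ha
    exact Pool.Agent.X320.RU.conj_norm hm ham

end Pool.Agent.Results.MP_395897_nt.WeightZero
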